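import Pool.Agent.W23.PP.Defs
import Pool.Agent.W655.PL.VLB
import Pool.Agent.W378.DC.MP
import Pool.Agent.W216.KS.VLBK

/-! PP-VLBP (owner helper23): Mertens products with the densities of the roots of `φ`. -/

set_option autoImplicit false

namespace Pool.Agent.W291.PP

open Finset
open Pool.Agent.H442R2
open Pool.Agent.H442R2.KF
open Pool.Agent.W23.DC
open Pool.Agent.W23.SG
open Pool.Agent.W23.PL
open Pool.Agent.W23.KT
open Pool.Agent.W23.PP

namespace Vlbp

theorem nr_le (φ : ℤ → ℤ) (d : ℕ) : nr φ d ≤ d := by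
  unfold nr
  refine (card_filter_le _ _).trans ?_
  simp

theorem rh_nonneg (φ : ℤ → ℤ) (d : ℕ) : 0 ≤ rh φ d := by
  unfold rh
  positivity

theorem rh_le_one (φ : ℤ → ℤ) (d : ℕ) : rh φ d ≤ 1 := by
  unfold rh
  refine div_le_one_of_le₀ ?_ (Nat.cast_nonneg _)
  exact_mod_cast nr_le φ d

theorem rh_le {k M N : ℕ} {φ : ℤ → ℤ} (hRTP : St_RTP) (hS : Sy k M N φ) {p : ℕ} (hp : p.Prime) :
    rh φ p ≤ k / p := by
  have h := (hRTP.2.2 k M N φ hS).1 p hp
  unfold rh
  have h2 : (nr φ p : ℝ) ≤ k := by exact_mod_cast h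
  gcongr

/-- all partial products are in `[0, 1]`, and monotone -/
theorem VP_nonneg (φ : ℤ → ℤ) (P : Finset ℕ) : 0 ≤ VP φ P := by
  unfold VP
  exact prod_nonneg fun p _ => by linarith [rh_le_one φ p]

theorem VP_le_one (φ : ℤ → ℤ) (P : Finset ℕ) : VP φ P ≤ 1 := by
  unfold VP
  exact prod_le_one (fun p _ => by linarith [rh_le_one φ p]) fun p _ => by
    linarith [rh_nonneg φ p]

theorem VP_split (φ : ℤ → ℤ) (P Q : Finset ℕ) (h : P ⊆ Q) : VP φ Q = VP φ (Q \ P) * VP φ P := by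
  unfold VP
  exact (prod_sdiff h).symm

theorem VP_anti (φ : ℤ → ℤ) (P Q : Finset ℕ) (h : P ⊆ Q) : VP φ Q ≤ VP φ P := by
  rw [VP_split φ P Q h]
  have h1 := VP_le_one φ (Q \ P)
  have h2 := VP_nonneg φ P
  nlinarith

/-- the lower bound of a product over primes at least `2 k` -/
theorem VP_lower {k M N : ℕ} {φ : ℤ → ℤ} (hRTP : St_RTP) (hS : Sy k M N φ) (P : Finset ℕ)
    (hP : ∀ p ∈ P, p.Prime) (hk : ∀ p ∈ P, 2 * (k : ℝ) ≤ (p : ℝ)) (S : ℝ)
    (hs : ∑ p ∈ P, 1 / (p : ℝ) ≤ S) :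
    Real.exp (-(k * S + 2 * (k : ℝ) ^ 2 + 2 * k)) ≤ VP φ P := by
  have hP2 : ∀ p ∈ P, 2 ≤ p := fun p hp => (hP p hp).two_le
  obtain ⟨h1, _⟩ := Pool.Agent.W216.KS.Vlbk.Vk_bounds k P hP2 hk
  obtain ⟨h2, _⟩ := Pool.Agent.W655.PL.Vlb.VV_bounds P hP2
  have h3 : Pool.Agent.W23.KS.Vk k P ≤ VP φ P := by
    unfold Pool.Agent.W23.KS.Vk VP
    refine prod_le_prod (fun p hp => ?_) fun p hp => ?_
    · have h4 : (0 : ℝ) < p := by exact_mod_cast (hP p hp).pos
      have h5 := hk p hp
      rw [sub_nonneg, div_le_one h4]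
      have : (0 : ℝ) ≤ k := Nat.cast_nonneg k
      linarith
    · have := rh_le hRTP hS (hP p hp)
      linarith
  refine le_trans ?_ (h1.trans h3)
  calc Real.exp (-(k * S + 2 * (k : ℝ) ^ 2 + 2 * k)) ≤
      Real.exp (-(2 * (k : ℝ) ^ 2) + k * (-(∑ p ∈ P, 1 / (p : ℝ)) - 2)) := by
        apply Real.exp_le_exp.2
        have : (k : ℝ) * (∑ p ∈ P, 1 / (p : ℝ)) ≤ k * S :=
          mul_le_mul_of_nonneg_left hs (Nat.cast_nonneg k)
        linarith
    _ = Real.exp (-(2 * (k : ℝ) ^ 2)) * Real.exp (-(∑ p ∈ P, 1 / (p : ℝ)) - 2) ^ k := by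
        rw [Real.exp_add, ← Real.exp_nat_mul]
    _ ≤ _ := by gcongr

/-- the whole sum -/
theorem sum_all : ∃ C : ℝ, 0 ≤ C ∧ ∀ N : ℕ, 3 ≤ N → ∀ P : Finset ℕ,
    (∀ p ∈ P, p.Prime ∧ p ≤ N) → ∑ p ∈ P, 1 / (p : ℝ) ≤ Real.log (Real.log N) + C := by
  obtain ⟨C1, hC1, hup⟩ := Pool.Agent.Helper256.KM.mertens_upper
  refine ⟨C1, hC1, fun N hN P hP => ?_⟩
  have hNR : (3 : ℝ) ≤ N := by exact_mod_cast hN
  have h1 := hup N (by linarith)
  rw [Nat.floor_natCast] at h1
  refine le_trans (sum_le_sum_of_subset_of_nonneg ?_ (fun _ _ _ => by positivity)) h1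
  intro p hp
  obtain ⟨h2, h3⟩ := hP p hp
  rw [mem_filter, mem_Icc]
  exact ⟨⟨h2.one_lt.le, h3⟩, h2⟩

/-- the sum over an interval -/
theorem sum_int : ∃ C : ℝ, 0 ≤ C ∧ ∀ w v : ℝ, 2 ≤ w → w ≤ v → ∀ P : Finset ℕ,
    (∀ p ∈ P, p.Prime ∧ w ≤ (p : ℝ) ∧ (p : ℝ) < v) →
    ∑ p ∈ P, 1 / (p : ℝ) ≤ Real.log (Real.log v) - Real.log (Real.log w) + C := by
  obtain ⟨C1, hC1, hup⟩ := Pool.Agent.Helper256.KM.mertens_upper
  obtain ⟨C2, hC2, hlo⟩ := Pool.Agent.Helper256.KM.mertens_lower
  refine ⟨C1 + C2 + 1, by linarith, fun w v hw hwv P hP => ?_⟩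
  classical
  set P' : Finset ℕ := (Finset.Icc 1 ⌊v⌋₊).filter
    (fun p => p.Prime ∧ w ≤ (p : ℝ) ∧ (p : ℝ) < v) with hP'
  have hv0 : 0 ≤ v := by linarith
  have hmem : ∀ p : ℕ, p ∈ P' ↔ p.Prime ∧ w ≤ (p : ℝ) ∧ (p : ℝ) < v := by
    intro p
    rw [hP', mem_filter, mem_Icc]
    constructor
    · exact fun h => h.2
    · intro h
      exact ⟨⟨h.1.one_lt.le, (Nat.le_floor_iff hv0).2 h.2.2.le⟩, h⟩
  have h1 : ∑ p ∈ P, 1 / (p : ℝ) ≤ ∑ p ∈ P', 1 / (p : ℝ) :=
    sum_le_sum_of_subset_of_nonneg (fun p hp => (hmem p).2 (hP p hp)) (fun _ _ _ => by positivity)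
  obtain ⟨_, h2⟩ := Pool.Agent.W655.PL.Vlb.sum_between P' w v (by linarith) hwv hmem
  have h3 := hup v (by linarith)
  have h4 := hlo w hw
  unfold Pool.Agent.W655.PL.Vlb.fP at h2
  linarith

/-- large `N`: the last step of the lower bounds -/
theorem last (k : ℕ) (C : ℝ) (L : ℝ) (hL : 0 < L) (h : Real.exp C ≤ L) :
    1 / L ^ (k + 1) ≤ Real.exp (-(k * Real.log L) - C) := by
  have h1 : Real.exp (-(k * Real.log L) - C) = 1 / L ^ k * (1 / Real.exp C) := by
    rw [Real.exp_sub, Real.exp_neg, mul_comm (k : ℝ), Real.exp_mul, Real.exp_log hL,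
      Real.rpow_natCast]
    field_simp
  rw [h1, pow_succ, one_div_mul_one_div]
  have : 0 < L ^ k := by positivity
  have h2 := Real.exp_pos C
  apply one_div_le_one_div_of_le
  · positivity
  · gcongr

end Vlbp

open Vlbp in
theorem VLBP (hRTP : St_RTP) : St_VLBP := by
  classical
  intro k hk
  obtain ⟨Ca, hCa, hall⟩ := sum_all
  obtain ⟨Ci, hCi, hint⟩ := sum_int
  have hkR : (1 : ℝ) ≤ k := by exact_mod_cast hk
  refine ⟨?_, ?_⟩
  · intro M B hB ε₁ hε hε1
    set S : ℝ := (Real.log B + Ci) + (Real.log (1 / ε₁) + 1 + Ci) with hS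
    obtain ⟨N₁, hN₁⟩ := Pool.Agent.W655.PL.Vlb.large B hB ε₁ hε
    refine ⟨Real.exp (k * S + 2 * (k : ℝ) ^ 2 + 2 * k),
      max N₁ (max 3 ⌈Real.exp (Real.exp (k * Ca + 2 * (k : ℝ) ^ 2 + 2 * k) + 2 * k + 2)⌉₊),
      Real.exp_pos _, ?_⟩
    intro N hN φ hφ
    have hN1 : N₁ ≤ N := (le_max_left _ _).trans hN
    have hN3 : 3 ≤ N := (le_max_left _ _).trans ((le_max_right _ _).trans hN)
    have hN4 := Nat.ceil_le.1 ((le_max_right _ _).trans ((le_max_right _ _).trans hN))
    have hNR : (3 : ℝ) ≤ N := by exact_mod_cast hN3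
    have hN0 : (0 : ℝ) < N := by linarith
    have hlog := (Real.le_log_iff_exp_le hN0).2 hN4
    have hE0 := Real.exp_pos (k * Ca + 2 * (k : ℝ) ^ 2 + 2 * k)
    have hlog1 : 1 ≤ Real.log N := by linarith
    have hlog2 : 2 * (k : ℝ) ≤ Real.log N := by linarith
    have hlog22 : 2 ≤ Real.log N := by linarith
    have hlogE : Real.exp (k * Ca + 2 * (k : ℝ) ^ 2 + 2 * k) ≤ Real.log N := by linarith
    obtain ⟨hw2, hwv⟩ := hN₁ N hN1
    have hsub : P1 N B ε₁ ⊆ PF N := by
      intro p hp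
      unfold P1 at hp
      unfold PF
      rw [mem_filter] at hp ⊢
      refine ⟨hp.1, hp.2.1, le_trans ?_ hp.2.2.1⟩
      calc Real.log N = Real.log N ^ 1 := (pow_one _).symm
        _ ≤ Real.log N ^ B := pow_le_pow_right₀ hlog1 hB
    have hPF : ∀ p ∈ PF N, p.Prime ∧ p ≤ N ∧ Real.log N ≤ (p : ℝ) := by
      intro p hp
      unfold PF at hp
      rw [mem_filter, mem_Icc] at hp
      exact ⟨hp.2.1, hp.1.2, hp.2.2⟩
    refine ⟨VP_anti φ _ _ hsub, ?_, ?_, VP_le_one φ _⟩
    · have h1 : Real.exp (-(k * S + 2 * (k : ℝ) ^ 2 + 2 * k)) ≤ VP φ (PF N \ P1 N B ε₁) := by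
        apply VP_lower hRTP hφ
        · exact fun p hp => (hPF p (mem_sdiff.1 hp).1).1
        · exact fun p hp => hlog2.trans (hPF p (mem_sdiff.1 hp).1).2.2
        · have hcov : PF N \ P1 N B ε₁ ⊆
              (PF N).filter (fun p : ℕ => (p : ℝ) < Real.log N ^ B) ∪
              (PF N).filter (fun p : ℕ => (N : ℝ) ^ ε₁ ≤ (p : ℝ)) := by
            intro p hp
            obtain ⟨hp1, hp2⟩ := mem_sdiff.1 hp
            rw [mem_union, mem_filter, mem_filter]
            obtain ⟨q1, q2, q3⟩ := hPF p hp1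
            by_contra hcon
            push Not at hcon
            obtain ⟨c1, c2⟩ := hcon
            have c1 := c1 hp1
            have c2 := c2 hp1
            apply hp2
            unfold P1 tt
            rw [mem_filter, mem_Icc]
            refine ⟨⟨q1.one_lt.le, q2⟩, q1, c1, ?_⟩
            have hp0 : (0 : ℝ) < p := by exact_mod_cast q1.pos
            rw [div_lt_iff₀ (by linarith)]
            rw [Real.rpow_def_of_pos hN0, ← Real.log_lt_iff_lt_exp hp0] at c2
            linarith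
          have g1 : ∑ p ∈ (PF N).filter (fun p : ℕ => (p : ℝ) < Real.log N ^ B), 1 / (p : ℝ) ≤
              Real.log B + Ci := by
            have h2 := hint (Real.log N) (Real.log N ^ B) hlog22
              (by
                calc Real.log N = Real.log N ^ 1 := (pow_one _).symm
                  _ ≤ Real.log N ^ B := pow_le_pow_right₀ hlog1 hB)
              ((PF N).filter (fun p : ℕ => (p : ℝ) < Real.log N ^ B))
              (fun p hp => by
                rw [mem_filter] at hp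
                obtain ⟨q1, q2, q3⟩ := hPF p hp.1
                exact ⟨q1, q3, hp.2⟩)
            have hll : 0 < Real.log (Real.log N) := Real.log_pos (by linarith)
            have hB0 : (0 : ℝ) < B := by exact_mod_cast hB
            rw [Real.log_pow, Real.log_mul hB0.ne' hll.ne'] at h2
            linarith
          have g2 : ∑ p ∈ (PF N).filter (fun p : ℕ => (N : ℝ) ^ ε₁ ≤ (p : ℝ)), 1 / (p : ℝ) ≤
              Real.log (1 / ε₁) + 1 + Ci := by
            have hle : (N : ℝ) ^ ε₁ ≤ (N : ℝ) + 1 := by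
              have h6 : (N : ℝ) ^ ε₁ ≤ (N : ℝ) ^ (1 : ℝ) :=
                Real.rpow_le_rpow_of_exponent_le (by linarith) hε1
              rw [Real.rpow_one] at h6
              linarith
            have h2 := hint ((N : ℝ) ^ ε₁) ((N : ℝ) + 1) (hw2.trans hwv) hle
              ((PF N).filter (fun p : ℕ => (N : ℝ) ^ ε₁ ≤ (p : ℝ)))
              (fun p hp => by
                rw [mem_filter] at hp
                obtain ⟨q1, q2, q3⟩ := hPF p hp.1
                refine ⟨q1, hp.2, ?_⟩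
                have : (p : ℝ) ≤ N := by exact_mod_cast q2
                linarith)
            have hl0 : 0 < Real.log N := by linarith
            rw [Real.log_rpow hN0, Real.log_mul hε.ne' hl0.ne'] at h2
            have h3 : Real.log ((N : ℝ) + 1) ≤ 2 * Real.log N := by
              rw [← Real.log_rpow hN0, show (2 : ℝ) = ((2 : ℕ) : ℝ) by norm_num, Real.rpow_natCast]
              apply Real.log_le_log (by linarith)
              nlinarith
            have h4 : Real.log (Real.log ((N : ℝ) + 1)) ≤ Real.log 2 + Real.log (Real.log N) := by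
              rw [← Real.log_mul (by norm_num) hl0.ne']
              apply Real.log_le_log _ h3
              apply Real.log_pos
              linarith
            have h5 := Real.log_two_lt_d9
            rw [one_div, Real.log_inv]
            linarith
          calc ∑ p ∈ PF N \ P1 N B ε₁, 1 / (p : ℝ) ≤ _ :=
                sum_le_sum_of_subset_of_nonneg hcov (fun _ _ _ => by positivity)
            _ ≤ ∑ p ∈ (PF N).filter (fun p : ℕ => (p : ℝ) < Real.log N ^ B), 1 / (p : ℝ) +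
                ∑ p ∈ (PF N).filter (fun p : ℕ => (N : ℝ) ^ ε₁ ≤ (p : ℝ)), 1 / (p : ℝ) := by
                rw [← sum_union_inter]
                have : 0 ≤ ∑ p ∈ (PF N).filter (fun p : ℕ => (p : ℝ) < Real.log N ^ B) ∩
                  (PF N).filter (fun p : ℕ => (N : ℝ) ^ ε₁ ≤ (p : ℝ)), (1 : ℝ) / p :=
                  sum_nonneg (fun _ _ => by positivity)
                linarith
            _ ≤ S := by rw [hS]; linarith
      rw [VP_split φ _ _ hsub]
      have h2 := VP_nonneg φ (P1 N B ε₁)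
      have h3 : 1 ≤ Real.exp (k * S + 2 * (k : ℝ) ^ 2 + 2 * k) * VP φ (PF N \ P1 N B ε₁) := by
        calc (1 : ℝ) = Real.exp (k * S + 2 * (k : ℝ) ^ 2 + 2 * k) *
              Real.exp (-(k * S + 2 * (k : ℝ) ^ 2 + 2 * k)) := by
              rw [← Real.exp_add, add_neg_cancel, Real.exp_zero]
          _ ≤ _ := by gcongr
      calc VP φ (P1 N B ε₁) = 1 * VP φ (P1 N B ε₁) := (one_mul _).symm
        _ ≤ (Real.exp (k * S + 2 * (k : ℝ) ^ 2 + 2 * k) * VP φ (PF N \ P1 N B ε₁)) *
            VP φ (P1 N B ε₁) := by gcongr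
        _ = _ := by ring
    · have h1 := VP_lower hRTP hφ (PF N) (fun p hp => (hPF p hp).1)
        (fun p hp => hlog2.trans (hPF p hp).2.2) _
        (hall N hN3 (PF N) (fun p hp => ⟨(hPF p hp).1, (hPF p hp).2.1⟩))
      refine le_trans (last k _ (Real.log N) (by linarith) hlogE) ?_
      refine le_trans (Real.exp_le_exp.2 (le_of_eq ?_)) h1
      ring
  · intro κ hκ hκ1
    refine ⟨Real.exp (k + 2 * (k : ℝ) ^ 2 + 2 * k), Real.exp_pos _, ?_⟩
    intro M ε₁ hε hεκ
    obtain ⟨N₁, hN₁⟩ := Pool.Agent.W378.DC.MP ε₁ 1 hε one_pos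
    have hev : ∀ᶠ N : ℕ in Filter.atTop, 2 * (k : ℝ) + 2 ≤ (N : ℝ) ^ ε₁ :=
      ((tendsto_rpow_atTop hε).comp tendsto_natCast_atTop_atTop).eventually_ge_atTop _
    obtain ⟨N₂, hN₂⟩ := Filter.eventually_atTop.1 hev
    set K : ℝ := k * Ca + 2 * (k : ℝ) ^ 2 + 2 * k + 2 * k * Real.log (2 * k) with hK
    refine ⟨max (max N₁ N₂) (max 3 ⌈Real.exp (Real.exp K + 2 * k + 2)⌉₊), ?_⟩
    intro N hN φ hφ
    have hN1 : N₁ ≤ N := (le_max_left _ _).trans ((le_max_left _ _).trans hN)
    have hN2 : N₂ ≤ N := (le_max_right _ _).trans ((le_max_left _ _).trans hN)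
    have hN3 : 3 ≤ N := (le_max_left _ _).trans ((le_max_right _ _).trans hN)
    have hN4 := Nat.ceil_le.1 ((le_max_right _ _).trans ((le_max_right _ _).trans hN))
    have hNR : (3 : ℝ) ≤ N := by exact_mod_cast hN3
    have hN0 : (0 : ℝ) < N := by linarith
    have hlog := (Real.le_log_iff_exp_le hN0).2 hN4
    have hE0 := Real.exp_pos K
    have hl0 : 0 < Real.log N := by linarith
    have hlogE : Real.exp K ≤ Real.log N := by linarith
    have hsub : P0 N ε₁ ⊆ P0 N κ := by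
      intro p hp
      unfold P0 at hp ⊢
      rw [mem_filter] at hp ⊢
      exact ⟨hp.1, hp.2.1, hp.2.2.trans_le hεκ⟩
    have hdiff : P0 N κ \ P0 N ε₁ ⊆ pr N ε₁ κ := by
      intro p hp
      obtain ⟨h1, h2⟩ := mem_sdiff.1 hp
      unfold P0 at h1 h2
      unfold pr
      rw [mem_filter] at h1 h2 ⊢
      refine ⟨h1.1, h1.2.1, ?_, h1.2.2⟩
      by_contra hcon
      exact h2 ⟨h1.1, h1.2.1, not_le.1 hcon⟩
    have hprm : ∀ p ∈ pr N ε₁ κ, p.Prime ∧ (N : ℝ) ^ ε₁ ≤ (p : ℝ) := by
      intro p hp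
      unfold pr tt at hp
      rw [mem_filter] at hp
      obtain ⟨_, q1, q2, _⟩ := hp
      have hp0 : (0 : ℝ) < p := by exact_mod_cast q1.pos
      refine ⟨q1, ?_⟩
      rw [le_div_iff₀ hl0] at q2
      rw [Real.rpow_def_of_pos hN0, ← Real.le_log_iff_exp_le hp0, mul_comm]
      exact q2
    have hsum : ∑ p ∈ P0 N κ \ P0 N ε₁, 1 / (p : ℝ) ≤ Real.log (1 / ε₁) + 1 := by
      have h1 := (abs_le.1 (hN₁ N hN1 ε₁ κ le_rfl hεκ hκ1)).2
      have h2 : ∑ p ∈ P0 N κ \ P0 N ε₁, 1 / (p : ℝ) ≤ ∑ p ∈ pr N ε₁ κ, 1 / ((p : ℝ) - 1) := by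
        refine (sum_le_sum_of_subset_of_nonneg hdiff (fun _ _ _ => by positivity)).trans ?_
        refine sum_le_sum fun p hp => ?_
        have h3 : (2 : ℝ) ≤ p := by exact_mod_cast (hprm p hp).1.two_le
        apply one_div_le_one_div_of_le <;> linarith
      have h3 : Real.log (κ / ε₁) ≤ Real.log (1 / ε₁) := by
        apply Real.log_le_log (by positivity)
        gcongr
      linarith
    refine ⟨VP_anti φ _ _ hsub, ?_, VP_nonneg φ _, ?_⟩
    · have h1 := VP_lower hRTP hφ (P0 N κ \ P0 N ε₁) (fun p hp => (hprm p (hdiff hp)).1)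
        (fun p hp => by
          have h3 := (hprm p (hdiff hp)).2
          have h4 : 2 * (k : ℝ) + 2 ≤ (N : ℝ) ^ ε₁ := hN₂ N hN2
          linarith) _ hsum
      rw [VP_split φ _ _ hsub]
      have h2 := VP_nonneg φ (P0 N ε₁)
      have h3 : 1 ≤ Real.exp (k + 2 * (k : ℝ) ^ 2 + 2 * k) * (1 / ε₁) ^ k *
          VP φ (P0 N κ \ P0 N ε₁) := by
        have e1 : (1 / ε₁) ^ k = Real.exp (k * Real.log (1 / ε₁)) := by
          rw [Real.exp_nat_mul, Real.exp_log (by positivity)]
        calc (1 : ℝ) = Real.exp (k + 2 * (k : ℝ) ^ 2 + 2 * k) * (1 / ε₁) ^ k *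
              Real.exp (-(k * (Real.log (1 / ε₁) + 1) + 2 * (k : ℝ) ^ 2 + 2 * k)) := by
              rw [e1, ← Real.exp_add, ← Real.exp_add, eq_comm, Real.exp_eq_one_iff]
              ring
          _ ≤ _ := by gcongr
      calc VP φ (P0 N ε₁) = 1 * VP φ (P0 N ε₁) := (one_mul _).symm
        _ ≤ (Real.exp (k + 2 * (k : ℝ) ^ 2 + 2 * k) * (1 / ε₁) ^ k *
          VP φ (P0 N κ \ P0 N ε₁)) * VP φ (P0 N ε₁) := by gcongr
        _ = _ := by ring
    · intro hpos
      have hP0 : ∀ p ∈ P0 N κ, p.Prime ∧ p ≤ N := by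
        intro p hp
        unfold P0 at hp
        rw [mem_filter, mem_Icc] at hp
        exact ⟨hp.2.1, hp.1.2⟩
      set A := (P0 N κ).filter (fun p => p < 2 * k) with hA
      have hAs : A ⊆ P0 N κ := filter_subset _ _
      have h1 := VP_split φ A (P0 N κ) hAs
      have hB : ∀ p ∈ P0 N κ \ A, p.Prime ∧ p ≤ N ∧ 2 * k ≤ p := by
        intro p hp
        obtain ⟨h2, h3⟩ := mem_sdiff.1 hp
        refine ⟨(hP0 p h2).1, (hP0 p h2).2, ?_⟩
        by_contra hcon
        exact h3 (mem_filter.2 ⟨h2, not_le.1 hcon⟩)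
      have h2 := VP_lower hRTP hφ (P0 N κ \ A) (fun p hp => (hB p hp).1)
        (fun p hp => by exact_mod_cast (hB p hp).2.2) _
        (hall N hN3 (P0 N κ \ A) (fun p hp => ⟨(hB p hp).1, (hB p hp).2.1⟩))
      have hk2 : (1 : ℝ) ≤ 2 * k := by linarith
      have h3 : Real.exp (-(2 * k * Real.log (2 * k))) ≤ VP φ A := by
        have h4 : ∀ p ∈ A, 1 / (2 * k : ℝ) ≤ 1 - rh φ p := by
          intro p hp
          obtain ⟨h5, h6⟩ := mem_filter.1 hp
          have hp0 : (0 : ℝ) < p := by exact_mod_cast (hP0 p h5).1.pos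
          have h7 : 0 < 1 - rh φ p := by
            rcases (sub_nonneg.2 (rh_le_one φ p)).lt_or_eq with h | h
            · exact h
            · exfalso
              have : VP φ (P0 N κ) = 0 := by
                unfold VP
                exact prod_eq_zero h5 h.symm
              linarith
          unfold rh at h7 ⊢
          rw [sub_pos, div_lt_one hp0] at h7
          have h8 : nr φ p + 1 ≤ p := by exact_mod_cast h7
          have h9 : (nr φ p : ℝ) + 1 ≤ p := by exact_mod_cast h8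
          have h10 : (p : ℝ) ≤ 2 * k := by exact_mod_cast h6.le
          calc 1 / (2 * k : ℝ) ≤ 1 / p := one_div_le_one_div_of_le hp0 h10
            _ ≤ 1 - nr φ p / p := by
              rw [div_le_iff₀ hp0]
              field_simp
              linarith
        have hcard : A.card ≤ 2 * k := by
          have : A ⊆ range (2 * k) := fun p hp => mem_range.2 (mem_filter.1 hp).2
          simpa using card_le_card this
        calc Real.exp (-(2 * k * Real.log (2 * k))) = (1 / (2 * k : ℝ)) ^ (2 * k) := by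
              rw [Real.exp_neg, one_div, inv_pow]
              congr 1
              rw [show (2 * (k : ℝ) * Real.log (2 * k)) = ((2 * k : ℕ) : ℝ) * Real.log (2 * k) by
                push_cast; ring, Real.exp_nat_mul, Real.exp_log (by linarith)]
          _ ≤ (1 / (2 * k : ℝ)) ^ A.card := by
              apply pow_le_pow_of_le_one (by positivity) _ hcard
              rw [div_le_one (by linarith)]
              exact hk2
          _ = ∏ _p ∈ A, (1 / (2 * k : ℝ)) := by rw [prod_const]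
          _ ≤ VP φ A := prod_le_prod (fun _ _ => by positivity) h4
      refine le_trans (last k K (Real.log N) hl0 hlogE) ?_
      rw [h1]
      calc Real.exp (-(k * Real.log (Real.log N)) - K) =
          Real.exp (-(k * (Real.log (Real.log N) + Ca) + 2 * (k : ℝ) ^ 2 + 2 * k)) *
          Real.exp (-(2 * k * Real.log (2 * k))) := by
            rw [← Real.exp_add, hK]
            congr 1
            ring
        _ ≤ _ := by
            apply mul_le_mul h2 h3 (Real.exp_pos _).le (VP_nonneg φ _)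

end Pool.Agent.W291.PP
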